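import Pool.Agent.H551.HK.L2

/-!
# Hohenberg-Kohn project (helper998), task COMP: a tight common minimizing sequence gives a
common ground state. helper551.
-/

set_option autoImplicit false

noncomputable section

namespace Pool.Agent.H551.HK

open MeasureTheory Filter Topology Set
open scoped ENNReal NNReal ComplexConjugate
open Pool.Agent.H998.HK Pool.Agent.H238.HK

theorem fin_gen {n : ℕ} (Ψ : Wave (n + 1)) : 0 ≤ normSq (n + 1) Ψ :=
  Finset.sum_nonneg fun _ _ => integral_nonneg fun _ => sq_nonneg _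

/-! ### energy bounds -/

theorem cou_le (n : ℕ) : ∃ A : ℝ, 0 < A ∧ ∀ (Ψ : Wave (n + 1)) (G : Gr n), IsWave (n + 1) Ψ G →
    Cou n Ψ ≤ A * (Kin n G + normSq (n + 1) Ψ) := by
  obtain ⟨C, hC, hc⟩ := Pool.Agent.H803.HK.coul t_COUX t_COUY n
  refine ⟨(n + 1 : ℝ) + C * (n + 1) ^ 2, by positivity, fun Ψ G hΨ => ?_⟩
  have h1 : ∀ s (j k : Fin (n + 1)), ∫ x : Fin (n + 1) → E3,
      (if j < k then 1 / ‖x j - x k‖ else 0) * ‖Ψ s x‖ ^ 2 ≤
      (∑ i, ∫ x, ‖G s j i x‖ ^ 2) + C * ∫ x, ‖Ψ s x‖ ^ 2 := by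
    intro s j k
    by_cases hjk : j < k
    · simp only [hjk, if_true]
      have h2 := (Pool.Agent.H803.HK.integrable_of_bound
        (fun x : Fin (n + 1) → E3 => 1 / ‖x j - x k‖ * ‖Ψ s x‖ ^ 2) (Ψ s) (G s j) (hΨ.memLp s)
        (hΨ.gradMemLp s j) (by
          refine Measurable.aestronglyMeasurable ?_ |>.mul
            ((hΨ.memLp s).aestronglyMeasurable.norm.pow 2)
          exact measurable_const.div (((measurable_pi_apply j).sub (measurable_pi_apply k)).norm))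
        (fun x => by positivity) 1 C zero_le_one hC.le
        (hc (Ψ s) (G s) (hΨ.memLp s) (hΨ.gradMemLp s) (hΨ.grad s) j k hjk)).2
      rw [one_mul] at h2
      exact h2
    · simp only [hjk, if_false, zero_mul, integral_zero]
      exact add_nonneg (Finset.sum_nonneg fun i _ => integral_nonneg fun x => sq_nonneg _)
        (mul_nonneg hC.le (integral_nonneg fun x => sq_nonneg _))
  have hK := Kin_nonneg n G
  have hN := fin_gen Ψ
  have h3 : Cou n Ψ ≤ (n + 1 : ℝ) * Kin n G + C * (n + 1) ^ 2 * normSq (n + 1) Ψ := by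
    calc Cou n Ψ ≤ ∑ s : Spin (n + 1), ∑ j, ∑ k : Fin (n + 1),
          ((∑ i, ∫ x, ‖G s j i x‖ ^ 2) + C * ∫ x, ‖Ψ s x‖ ^ 2) :=
          Finset.sum_le_sum fun s _ => Finset.sum_le_sum fun j _ => Finset.sum_le_sum fun k _ =>
            h1 s j k
      _ = _ := by
        unfold Kin normSq
        simp only [Finset.sum_const, Finset.card_univ, Fintype.card_fin, nsmul_eq_mul, mul_add,
          Finset.sum_add_distrib, ← Finset.mul_sum]
        push_cast
        ring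
  have e : ((n + 1 : ℝ) + C * (n + 1) ^ 2) * (Kin n G + normSq (n + 1) Ψ) =
      ((n + 1 : ℝ) * Kin n G + C * (n + 1) ^ 2 * normSq (n + 1) Ψ) +
      (C * (n + 1) ^ 2 * Kin n G + (n + 1) * normSq (n + 1) Ψ) := by ring
  rw [e]
  have h4 : 0 ≤ C * (n + 1 : ℝ) ^ 2 * Kin n G + (n + 1) * normSq (n + 1) Ψ := by positivity
  linarith

/-- upper bound of the energy -/
theorem en_le {n : ℕ} {v : E3 → ℝ} {C : ℝ} (hC : 0 < C) (hfb : FB n v C) : ∃ A : ℝ, 0 < A ∧
    ∀ (Ψ : Wave (n + 1)) (G : Gr n), IsWave (n + 1) Ψ G →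
    energy (n + 1) v Ψ G ≤ A * (Kin n G + normSq (n + 1) Ψ) := by
  obtain ⟨A, hA, h⟩ := cou_le n
  refine ⟨1 + C + A, by positivity, fun Ψ G hΨ => ?_⟩
  obtain ⟨hi, hb⟩ := hfb Ψ G hΨ
  rw [energy_eq n v Ψ G hi]
  have h2 := (le_abs_self _).trans (Pv_abs_ge n v Ψ)
  have h3 := h Ψ G hΨ
  have hK := Kin_nonneg n G
  have hN := fin_gen Ψ
  have h5 : 0 ≤ C * Kin n G := by positivity
  nlinarith

/-- lower bound of the energy -/
theorem kin_le' {n : ℕ} {v : E3 → ℝ} {C : ℝ} (hfb : FB n v C) (Ψ : Wave (n + 1)) (G : Gr n)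
    (h : IsWave (n + 1) Ψ G) :
    1 / 4 * Kin n G ≤ energy (n + 1) v Ψ G + C * normSq (n + 1) Ψ := by
  obtain ⟨hi, hb⟩ := hfb Ψ G h
  rw [energy_eq n v Ψ G hi]
  have h2 := neg_le_of_abs_le (Pv_abs_ge n v Ψ)
  have h3 := Cou_nonneg n Ψ
  linarith

/-! ### the shifted form -/

/-- `⟨Ψ, (H - E) Ψ⟩` -/
def Q (n : ℕ) (v : E3 → ℝ) (Ψ : Wave (n + 1)) (G : Gr n) : ℝ :=
  energy (n + 1) v Ψ G - E0 n v * normSq (n + 1) Ψ

theorem HB_of {n : ℕ} {v : E3 → ℝ} {C : ℝ} (hfb : FB n v C) : Pool.Agent.H123.HK.HB n v C :=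
  fun Ψ G h => ⟨(hfb Ψ G h).1.1, (hfb Ψ G h).1.2, (hfb Ψ G h).2⟩

theorem Q_eq {n : ℕ} {v : E3 → ℝ} {C : ℝ} (hfb : FB n v C) {Ψ : Wave (n + 1)} {G : Gr n}
    (h : IsWave (n + 1) Ψ G) :
    Q n v Ψ G = ∑ s, ∫ x, Pool.Agent.H123.HK.qq (E0 n v) v (Ψ s) (G s) x :=
  (Pool.Agent.H123.HK.energy_eq (HB_of hfb) h (E0 n v)).symm

theorem Q_nonneg {n : ℕ} {v : E3 → ℝ} {C : ℝ} (hfb : FB n v C) {Ψ : Wave (n + 1)} {G : Gr n}
    (h : IsWave (n + 1) Ψ G) : 0 ≤ Q n v Ψ G := by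
  rw [Q_eq hfb h]
  exact Pool.Agent.H123.HK.nonneg (HB_of hfb) h

theorem isWave_sub {N : ℕ} {Ψ Φ : Wave N} {G K : Spin N → Fin N → Fin 3 → (Fin N → E3) → ℂ}
    (h : IsWave N Ψ G) (h' : IsWave N Φ K) :
    IsWave N (fun s x => Ψ s x - Φ s x) (fun s j i x => G s j i x - K s j i x) := by
  have h2 := Pool.Agent.H123.HK.IsWave_add h (Pool.Agent.H123.HK.IsWave_smul h' (-1))
  have e1 : (fun s x => Ψ s x - Φ s x) = fun s x => Ψ s x + (-1) * Φ s x := by
    funext s x; ring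
  have e2 : (fun s j i x => G s j i x - K s j i x) =
      fun s j i x => G s j i x + (-1) * K s j i x := by
    funext s j i x; ring
  rw [e1, e2]
  exact h2

theorem par (a b : ℂ) : ‖a + b‖ ^ 2 + ‖a - b‖ ^ 2 = 2 * ‖a‖ ^ 2 + 2 * ‖b‖ ^ 2 := by
  have := parallelogram_law_with_norm ℂ a b
  nlinarith

theorem qq_par {N : ℕ} (E : ℝ) (v : E3 → ℝ) (u w : (Fin N → E3) → ℂ)
    (G K : Fin N → Fin 3 → (Fin N → E3) → ℂ) (x : Fin N → E3) :
    Pool.Agent.H123.HK.qq E v (fun x => u x + w x) (fun j i x => G j i x + K j i x) x +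
    Pool.Agent.H123.HK.qq E v (fun x => u x - w x) (fun j i x => G j i x - K j i x) x =
      2 * Pool.Agent.H123.HK.qq E v u G x + 2 * Pool.Agent.H123.HK.qq E v w K x := by
  have h1 : (∑ j, ∑ i, ‖G j i x + K j i x‖ ^ 2) + (∑ j, ∑ i, ‖G j i x - K j i x‖ ^ 2) =
      2 * (∑ j, ∑ i, ‖G j i x‖ ^ 2) + 2 * ∑ j, ∑ i, ‖K j i x‖ ^ 2 := by
    simp only [← Finset.sum_add_distrib, Finset.mul_sum, par]
  have h2 := par (u x) (w x)
  simp only [Pool.Agent.H123.HK.qq]
  linear_combination (1 / 2 : ℝ) * h1 + (Pool.Agent.H123.HK.VV v x - E) * h2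

theorem Q_par {n : ℕ} {v : E3 → ℝ} {C : ℝ} (hfb : FB n v C) {Ψ Φ : Wave (n + 1)} {G K : Gr n}
    (h : IsWave (n + 1) Ψ G) (h' : IsWave (n + 1) Φ K) :
    Q n v (fun s x => Ψ s x + Φ s x) (fun s j i x => G s j i x + K s j i x) +
    Q n v (fun s x => Ψ s x - Φ s x) (fun s j i x => G s j i x - K s j i x) =
      2 * Q n v Ψ G + 2 * Q n v Φ K := by
  have ha := Pool.Agent.H123.HK.IsWave_add h h'
  have hs := isWave_sub h h'
  rw [Q_eq hfb h, Q_eq hfb h', Q_eq hfb ha, Q_eq hfb hs, ← Finset.sum_add_distrib,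
    Finset.mul_sum, Finset.mul_sum, ← Finset.sum_add_distrib]
  refine Finset.sum_congr rfl fun s _ => ?_
  have i1 := Pool.Agent.H123.HK.int_qq (HB_of hfb) h (E0 n v) s
  have i2 := Pool.Agent.H123.HK.int_qq (HB_of hfb) h' (E0 n v) s
  have i3 := Pool.Agent.H123.HK.int_qq (HB_of hfb) ha (E0 n v) s
  have i4 := Pool.Agent.H123.HK.int_qq (HB_of hfb) hs (E0 n v) s
  rw [← integral_const_mul, ← integral_const_mul, ← integral_add (i1.const_mul 2) (i2.const_mul 2),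
    ← integral_add i3 i4]
  refine integral_congr_ae (Eventually.of_forall fun x => ?_)
  exact qq_par (E0 n v) v (Ψ s) (Φ s) (G s) (K s) x

/-! ### tightness -/

theorem tight (n : ℕ) (Ψ : ℕ → Wave (n + 1)) (G : ℕ → Gr n)
    (hΨ : ∀ k, IsWave (n + 1) (Ψ k) (G k)) (ht : TightD n Ψ) (s : Spin (n + 1)) (ε : ℝ)
    (hε : 0 < ε) : ∃ R : ℝ, ∀ k,
      ∫ x in {x : Fin (n + 1) → E3 | R < ‖x‖}, ‖Ψ k s x‖ ^ 2 ≤ ε := by
  obtain ⟨R, hR⟩ := ht ε hε
  refine ⟨R, fun k => ?_⟩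
  set w : E3 → ℝ := {x : E3 | R < ‖x‖}.indicator (fun _ => 1) with hw
  have hm : MeasurableSet {x : E3 | R < ‖x‖} := measurableSet_lt measurable_const measurable_norm
  have hm' : MeasurableSet {x : Fin (n + 1) → E3 | R < ‖x‖} :=
    measurableSet_lt measurable_const measurable_norm
  have hwm : Measurable w := measurable_const.indicator hm
  have hw0 : ∀ x, 0 ≤ w x := fun x => by
    rw [hw]; exact indicator_nonneg (fun _ _ => zero_le_one) x
  have hw1 : ∀ x, w x ≤ 1 := fun x => by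
    rw [hw]; exact indicator_le' (fun _ _ => le_rfl) (fun _ _ => zero_le_one) x
  have isq : ∀ s, Integrable fun x => ‖Ψ k s x‖ ^ 2 := fun s =>
    ((hΨ k).memLp s).integrable_norm_pow (by norm_num)
  have hi : ∀ s j, Integrable fun x : Fin (n + 1) → E3 => w (x j) * ‖Ψ k s x‖ ^ 2 := by
    intro s j
    refine (isq s).mono ((hwm.comp (measurable_pi_apply j)).aestronglyMeasurable.mul (isq s).1)
      (Eventually.of_forall fun x => ?_)
    rw [norm_mul, Real.norm_eq_abs (w (x j)), abs_of_nonneg (hw0 _)]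
    exact mul_le_of_le_one_left (norm_nonneg _) (hw1 _)
  have h1 := (Pv_dens n w (Ψ k) (G k) (hΨ k) hi).2
  have h2 : ∫ x, w x * dens n (Ψ k) x = ∫ x in {x : E3 | R < ‖x‖}, dens n (Ψ k) x := by
    rw [← integral_indicator hm]
    refine integral_congr_ae (Eventually.of_forall fun x => ?_)
    by_cases hx : x ∈ {x : E3 | R < ‖x‖}
    · simp only [hw, indicator_of_mem hx, one_mul]
    · simp only [hw, indicator_of_notMem hx, zero_mul]
  rw [h2] at h1
  refine le_trans ?_ (h1.trans_le (hR k))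
  calc ∫ x in {x : Fin (n + 1) → E3 | R < ‖x‖}, ‖Ψ k s x‖ ^ 2
      = ∫ x, {x : Fin (n + 1) → E3 | R < ‖x‖}.indicator (fun x => ‖Ψ k s x‖ ^ 2) x :=
        (integral_indicator hm').symm
    _ ≤ ∫ x : Fin (n + 1) → E3, ∑ j, w (x j) * ‖Ψ k s x‖ ^ 2 := by
        refine integral_mono ((isq s).indicator hm') (integrable_finsetSum _ fun j _ => hi s j)
          fun x => ?_
        have hsum : 0 ≤ ∑ j, w (x j) * ‖Ψ k s x‖ ^ 2 :=
          Finset.sum_nonneg fun j _ => mul_nonneg (hw0 _) (sq_nonneg _)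
        by_cases hx : x ∈ {x : Fin (n + 1) → E3 | R < ‖x‖}
        · rw [indicator_of_mem hx]
          have h3 : ∃ j, R < ‖x j‖ := by
            by_contra hcon
            push Not at hcon
            exact absurd ((pi_norm_le_iff_of_nonempty x).2 hcon) (not_le.2 hx)
          obtain ⟨j, hj⟩ := h3
          have h4 : w (x j) = 1 := by
            exact indicator_of_mem (s := {x : E3 | R < ‖x‖}) (f := fun _ => (1 : ℝ)) hj
          have h5 := Finset.single_le_sum (f := fun j => w (x j) * ‖Ψ k s x‖ ^ 2)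
            (fun j _ => mul_nonneg (hw0 _) (sq_nonneg _)) (Finset.mem_univ j)
          simp only [h4, one_mul] at h5
          exact h5
        · rw [indicator_of_notMem hx]
          exact hsum
    _ = ∑ j, ∫ x : Fin (n + 1) → E3, w (x j) * ‖Ψ k s x‖ ^ 2 :=
        integral_finsetSum _ fun j _ => hi s j
    _ ≤ Pv n w (Ψ k) := by
        unfold Pv
        exact Finset.single_le_sum
          (f := fun s => ∑ j, ∫ x : Fin (n + 1) → E3, w (x j) * ‖Ψ k s x‖ ^ 2)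
          (fun s _ => Finset.sum_nonneg fun j _ => integral_nonneg fun x =>
            mul_nonneg (hw0 _) (sq_nonneg _)) (Finset.mem_univ s)

/-! ### extraction of a subsequence -/

theorem extract (hR : S_REL) (n : ℕ) (Ψ : ℕ → Wave (n + 1)) (G : ℕ → Gr n)
    (hΨ : ∀ k, IsWave (n + 1) (Ψ k) (G k)) (M : ℝ) (hM : ∀ k, normSq (n + 1) (Ψ k) ≤ M)
    (hM' : ∀ k, Kin n (G k) ≤ M) (ht : TightD n Ψ) (S : Finset (Spin (n + 1))) :
    ∃ φ : ℕ → ℕ, StrictMono φ ∧ ∀ s ∈ S, ∃ w : (Fin (n + 1) → E3) → ℂ, MemLp w 2 ∧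
      Cv (fun k => Ψ (φ k) s) w := by
  classical
  induction S using Finset.induction_on with
  | empty => exact ⟨id, strictMono_id, fun s hs => absurd hs (Finset.notMem_empty s)⟩
  | insert a S ha ih =>
    obtain ⟨φ, hφ, h⟩ := ih
    have k1 : ∀ k, ∫ x, ‖Ψ (φ k) a x‖ ^ 2 ≤ M := fun k =>
      (Finset.single_le_sum (f := fun s => ∫ x, ‖Ψ (φ k) s x‖ ^ 2)
        (fun s _ => integral_nonneg fun x => sq_nonneg _) (Finset.mem_univ a)).trans (hM (φ k))
    have k2 : ∀ k j i, ∫ x, ‖G (φ k) a j i x‖ ^ 2 ≤ M := by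
      intro k j i
      refine le_trans ?_ (hM' (φ k))
      unfold Kin
      refine le_trans ?_ (Finset.single_le_sum
        (f := fun s => ∑ j, ∑ i, ∫ x, ‖G (φ k) s j i x‖ ^ 2)
        (fun s _ => Finset.sum_nonneg fun j _ => Finset.sum_nonneg fun i _ =>
          integral_nonneg fun x => sq_nonneg _) (Finset.mem_univ a))
      refine le_trans ?_ (Finset.single_le_sum
        (f := fun j => ∑ i, ∫ x, ‖G (φ k) a j i x‖ ^ 2)
        (fun j _ => Finset.sum_nonneg fun i _ =>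
          integral_nonneg fun x => sq_nonneg _) (Finset.mem_univ j))
      exact Finset.single_le_sum (f := fun i => ∫ x, ‖G (φ k) a j i x‖ ^ 2)
        (fun i _ => integral_nonneg fun x => sq_nonneg _) (Finset.mem_univ i)
    obtain ⟨φ', w, hφ', hw, hc⟩ := hR (n + 1) (fun k => Ψ (φ k) a) (fun k j i => G (φ k) a j i) M
      (fun k => (hΨ (φ k)).memLp a) (fun k j i => (hΨ (φ k)).gradMemLp a j i)
      (fun k j i => (hΨ (φ k)).grad a j i) k1 k2 (fun ε hε => by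
        obtain ⟨R, hR'⟩ := tight n Ψ G hΨ ht a ε hε
        exact ⟨R, fun k => hR' (φ k)⟩)
    refine ⟨fun k => φ (φ' k), hφ.comp hφ', fun s hs => ?_⟩
    rcases Finset.mem_insert.1 hs with rfl | hs
    · exact ⟨w, hw, hc⟩
    · obtain ⟨w', hw', hc'⟩ := h s hs
      exact ⟨w', hw', cv_comp hc' hφ'⟩

/-! ### passage to the limit -/

theorem cv_unique {X : Type} [MeasureSpace X] {u u' : ℕ → X → ℂ} {w w' : X → ℂ}
    (hu : ∀ k, MemLp (u k) 2) (hu' : ∀ k, MemLp (u' k) 2) (hw : MemLp w 2) (hw' : MemLp w' 2)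
    (h : Cv u w) (h' : Cv u' w') (he : ∀ k, u k =ᵐ[volume] u' k) : w =ᵐ[volume] w' := by
  have t1 := (cv_iff hu hw).1 h
  have t2 := (cv_iff hu' hw').1 h'
  have e : (fun k => (hu k).toLp (u k)) = fun k => (hu' k).toLp (u' k) := by
    funext k
    exact MemLp.toLp_congr _ _ (he k)
  rw [e] at t1
  have h3 := tendsto_nhds_unique t1 t2
  exact (MemLp.toLp_eq_toLp_iff hw hw').1 h3

theorem cv_perm {N : ℕ} {u : ℕ → (Fin N → E3) → ℂ} {w : (Fin N → E3) → ℂ}
    (π : Equiv.Perm (Fin N)) (h : Cv u w) : Cv (fun k x => u k (x ∘ π)) (fun x => w (x ∘ π)) := by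
  unfold Cv at h ⊢
  refine h.congr fun k => ?_
  have := (Pool.Agent.H123.HK.RR_mp π).integral_comp
    (Pool.Agent.H123.HK.RR π).toHomeomorph.measurableEmbedding
    (fun x => ‖u k x - w x‖ ^ 2)
  exact this.symm

theorem cv_smul {X : Type} [MeasureSpace X] {u : ℕ → X → ℂ} {w : X → ℂ} (c : ℂ) (h : Cv u w) :
    Cv (fun k x => c * u k x) (fun x => c * w x) := by
  unfold Cv at h ⊢
  have h2 := h.const_mul (‖c‖ ^ 2)
  rw [mul_zero] at h2
  refine h2.congr fun k => ?_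
  rw [← integral_const_mul]
  refine integral_congr_ae (Eventually.of_forall fun x => ?_)
  simp only
  rw [← mul_sub, norm_mul, mul_pow]

theorem fin_Q {n : ℕ} {v : E3 → ℝ} {C : ℝ} (hC : 0 < C) (hfb : FB n v C)
    {Ψ : ℕ → Wave (n + 1)} {G : ℕ → Gr n} {Φ : Wave (n + 1)} {K : Gr n}
    (hΨ : ∀ k, IsWave (n + 1) (Ψ k) (G k)) (hΦ : IsWave (n + 1) Φ K)
    (h1 : Tendsto (fun k => Q n v (Ψ k) (G k)) atTop (𝓝 0))
    (h2 : Tendsto (fun k => normSq (n + 1) (fun s x => Φ s x - Ψ k s x)) atTop (𝓝 0))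
    (h3 : Tendsto (fun k => Kin n (fun s j i x => K s j i x - G k s j i x)) atTop (𝓝 0)) :
    Q n v Φ K = 0 := by
  obtain ⟨A, hA, hub⟩ := en_le hC hfb
  refine le_antisymm ?_ (Q_nonneg hfb hΦ)
  have hbd : ∀ k, Q n v Φ K ≤ 2 * Q n v (Ψ k) (G k) +
      2 * (A * (Kin n (fun s j i x => K s j i x - G k s j i x) +
        normSq (n + 1) (fun s x => Φ s x - Ψ k s x)) +
        |E0 n v| * normSq (n + 1) (fun s x => Φ s x - Ψ k s x)) := by
    intro k
    have hs := isWave_sub hΦ (hΨ k)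
    have p1 := Q_par hfb (hΨ k) hs
    have p2 := Q_nonneg hfb (isWave_sub (hΨ k) hs)
    have e1 : (fun (s : Spin (n + 1)) (x : Fin (n + 1) → E3) => Ψ k s x + (Φ s x - Ψ k s x)) = Φ := by
      funext s x; ring
    have e2 : (fun (s : Spin (n + 1)) (j : Fin (n + 1)) (i : Fin 3) (x : Fin (n + 1) → E3) =>
        G k s j i x + (K s j i x - G k s j i x)) = K := by
      funext s j i x; ring
    rw [e1, e2] at p1
    have p3 := hub _ _ hs
    have p4 : Q n v (fun s x => Φ s x - Ψ k s x) (fun s j i x => K s j i x - G k s j i x) ≤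
        A * (Kin n (fun s j i x => K s j i x - G k s j i x) +
        normSq (n + 1) (fun s x => Φ s x - Ψ k s x)) +
        |E0 n v| * normSq (n + 1) (fun s x => Φ s x - Ψ k s x) := by
      unfold Q
      have p5 := mul_le_mul_of_nonneg_right (neg_abs_le (E0 n v))
        (fin_gen (fun s x => Φ s x - Ψ k s x))
      linarith
    linarith
  have t : Tendsto (fun k => 2 * Q n v (Ψ k) (G k) +
      2 * (A * (Kin n (fun s j i x => K s j i x - G k s j i x) +
        normSq (n + 1) (fun s x => Φ s x - Ψ k s x)) +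
        |E0 n v| * normSq (n + 1) (fun s x => Φ s x - Ψ k s x))) atTop
      (𝓝 (2 * 0 + 2 * (A * (0 + 0) + |E0 n v| * 0))) :=
    (h1.const_mul 2).add ((((h3.add h2).const_mul A).add (h2.const_mul _)).const_mul 2)
  have e : 2 * 0 + 2 * (A * (0 + 0) + |E0 n v| * 0) = (0 : ℝ) := by ring
  rw [e] at t
  exact ge_of_tendsto' t hbd

theorem t_COMP (hW : S_WFB) (hR : S_REL) : S_COMP := by
  intro n v₁ v₂ hv1 hv2 Ψ₀ G₀ hΨ₀ he1 he2 ht
  obtain ⟨C₁, hC₁, hf1⟩ := fb_of hW n v₁ hv1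
  obtain ⟨C₂, hC₂, hf2⟩ := fb_of hW n v₂ hv2
  obtain ⟨M, hM⟩ : ∃ M, ∀ k, Kin n (G₀ k) ≤ M := by
    obtain ⟨M, hM⟩ := he1.bddAbove_range
    refine ⟨4 * (M + C₁), fun k => ?_⟩
    have h1 := kin_le hf1 (Ψ₀ k) (G₀ k) (hΨ₀ k).1 (hΨ₀ k).2
    have h2 : energy (n + 1) v₁ (Ψ₀ k) (G₀ k) ≤ M := hM (mem_range_self k)
    linarith
  obtain ⟨φ, hφ, hw⟩ := extract hR n Ψ₀ G₀ (fun k => (hΨ₀ k).1) (max M 1)
    (fun k => by rw [(hΨ₀ k).2]; exact le_max_right _ _)
    (fun k => (hM k).trans (le_max_left _ _)) ht Finset.univ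
  obtain ⟨Ψ, hΨd⟩ : ∃ Ψ : ℕ → Wave (n + 1), Ψ = fun k => Ψ₀ (φ k) := ⟨_, rfl⟩
  obtain ⟨G, hGd⟩ : ∃ G : ℕ → Gr n, G = fun k => G₀ (φ k) := ⟨_, rfl⟩
  have hΨ : ∀ k, IsWave (n + 1) (Ψ k) (G k) := fun k => by
    rw [hΨd, hGd]; exact (hΨ₀ (φ k)).1
  have hn : ∀ k, normSq (n + 1) (Ψ k) = 1 := fun k => by
    rw [hΨd]; exact (hΨ₀ (φ k)).2
  have hE : ∀ v, Tendsto (fun k => energy (n + 1) v (Ψ₀ k) (G₀ k)) atTop (𝓝 (E0 n v)) →
      Tendsto (fun k => Q n v (Ψ k) (G k)) atTop (𝓝 0) := by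
    intro v hv
    have h1 := (hv.comp hφ.tendsto_atTop).sub_const (E0 n v)
    rw [sub_self] at h1
    refine h1.congr fun k => ?_
    unfold Q
    rw [hn k, mul_one, hΨd, hGd]
    rfl
  have hE1 := hE v₁ he1
  have hE2 := hE v₂ he2
  choose Φ hΦ hΦc using fun s => hw s (Finset.mem_univ s)
  have hΦc : ∀ s, Cv (fun k => Ψ k s) (Φ s) := fun s => by
    rw [hΨd]; exact hΦc s
  obtain ⟨d, hdd⟩ : ∃ d : ℕ → ℝ, d = fun k => ∑ s, ∫ x, ‖Ψ k s x - Φ s x‖ ^ 2 := ⟨_, rfl⟩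
  have hd : Tendsto d atTop (𝓝 0) := by
    have := tendsto_finsetSum Finset.univ (fun s _ => hΦc s)
    rw [Finset.sum_const_zero] at this
    rw [hdd]
    exact this
  obtain ⟨b, hbd⟩ : ∃ b : ℕ → ℝ, b = fun k => 8 * Q n v₁ (Ψ k) (G k) +
      8 * (|E0 n v₁| + C₁) * d k := ⟨_, rfl⟩
  have hb : Tendsto b atTop (𝓝 0) := by
    have := (hE1.const_mul 8).add (hd.const_mul (8 * (|E0 n v₁| + C₁)))
    rw [mul_zero, mul_zero, add_zero] at this
    rw [hbd]
    exact this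
  have key : ∀ k l, Kin n (fun s j i x => G k s j i x - G l s j i x) ≤ b k + b l := by
    intro k l
    have hs := isWave_sub (hΨ k) (hΨ l)
    have h1 := kin_le' hf1 _ _ hs
    have h2 : normSq (n + 1) (fun s x => Ψ k s x - Ψ l s x) ≤ 2 * d k + 2 * d l := by
      rw [hdd]
      simp only
      rw [Finset.mul_sum, Finset.mul_sum, ← Finset.sum_add_distrib]
      exact Finset.sum_le_sum fun s _ => cv_cauchy (fun k => (hΨ k).memLp s) (hΦ s) k l
    have h3 := Q_par hf1 (hΨ k) (hΨ l)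
    have h4 := Q_nonneg hf1 (Pool.Agent.H123.HK.IsWave_add (hΨ k) (hΨ l))
    have h5 : energy (n + 1) v₁ (fun s x => Ψ k s x - Ψ l s x)
        (fun s j i x => G k s j i x - G l s j i x) =
        Q n v₁ (fun s x => Ψ k s x - Ψ l s x) (fun s j i x => G k s j i x - G l s j i x) +
        E0 n v₁ * normSq (n + 1) (fun s x => Ψ k s x - Ψ l s x) := by
      unfold Q; ring
    have h6 := mul_le_mul_of_nonneg_right (le_abs_self (E0 n v₁))
      (fin_gen (fun s x => Ψ k s x - Ψ l s x))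
    have h7 := mul_le_mul_of_nonneg_left h2 (by positivity : 0 ≤ |E0 n v₁| + C₁)
    rw [hbd]
    simp only
    linarith
  have kc : ∀ s j i k l, ∫ x, ‖G k s j i x - G l s j i x‖ ^ 2 ≤ b k + b l := by
    intro s j i k l
    refine le_trans ?_ (key k l)
    unfold Kin
    refine le_trans ?_ (Finset.single_le_sum
      (f := fun s => ∑ j, ∑ i, ∫ x, ‖G k s j i x - G l s j i x‖ ^ 2)
      (fun s _ => Finset.sum_nonneg fun j _ => Finset.sum_nonneg fun i _ =>
        integral_nonneg fun x => sq_nonneg _) (Finset.mem_univ s))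
    refine le_trans ?_ (Finset.single_le_sum
      (f := fun j => ∑ i, ∫ x, ‖G k s j i x - G l s j i x‖ ^ 2)
      (fun j _ => Finset.sum_nonneg fun i _ =>
        integral_nonneg fun x => sq_nonneg _) (Finset.mem_univ j))
    exact Finset.single_le_sum (f := fun i => ∫ x, ‖G k s j i x - G l s j i x‖ ^ 2)
      (fun i _ => integral_nonneg fun x => sq_nonneg _) (Finset.mem_univ i)
  choose K hK hKc using fun s j i => cv_lim (fun k => (hΨ k).gradMemLp s j i) hb (kc s j i)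
  have hW' : IsWave (n + 1) Φ K := by
    refine ⟨hΦ, hK, fun s j i => ?_, fun π s => ?_⟩
    · exact WD_lim (fun m => (hΨ m).grad s j i) (fun m => (hΨ m).memLp s)
        (fun m => (hΨ m).gradMemLp s j i) (hΦ s) (hK s j i) (hΦc s) (hKc s j i)
    · exact cv_unique (fun k => Pool.Agent.H123.HK.memLp_RR ((hΨ k).memLp (s ∘ π)) π)
        (fun k => ((hΨ k).memLp s).const_mul _)
        (Pool.Agent.H123.HK.memLp_RR (hΦ (s ∘ π)) π) ((hΦ s).const_mul _)
        (cv_perm π (hΦc (s ∘ π))) (cv_smul (Equiv.Perm.sign π : ℂ) (hΦc s))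
        (fun k => (hΨ k).antisymm π s)
  have hN : normSq (n + 1) Φ = 1 := by
    have t := tendsto_finsetSum Finset.univ
      (fun s _ => cv_nsq (fun k => (hΨ k).memLp s) (hΦ s) (hΦc s))
    refine tendsto_nhds_unique t ?_
    refine tendsto_const_nhds.congr fun k => ?_
    exact (hn k).symm
  have t2 : Tendsto (fun k => normSq (n + 1) (fun s x => Φ s x - Ψ k s x)) atTop (𝓝 0) := by
    refine hd.congr fun k => ?_
    rw [hdd]
    refine Finset.sum_congr rfl fun s _ => ?_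
    refine integral_congr_ae (Eventually.of_forall fun x => ?_)
    simp only
    rw [norm_sub_rev]
  have t3 : Tendsto (fun k => Kin n (fun s j i x => K s j i x - G k s j i x)) atTop (𝓝 0) := by
    have t := tendsto_finsetSum Finset.univ (fun s _ => tendsto_finsetSum Finset.univ
      (fun j _ => tendsto_finsetSum Finset.univ (fun i _ => hKc s j i)))
    simp only [Finset.sum_const_zero] at t
    refine t.congr fun k => ?_
    refine Finset.sum_congr rfl fun s _ => Finset.sum_congr rfl fun j _ =>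
      Finset.sum_congr rfl fun i _ => ?_
    refine integral_congr_ae (Eventually.of_forall fun x => ?_)
    simp only
    rw [norm_sub_rev]
  have q1 := fin_Q hC₁ hf1 hΨ hW' hE1 t2 t3
  have q2 := fin_Q hC₂ hf2 hΨ hW' hE2 t2 t3
  unfold Q at q1 q2
  rw [hN, mul_one] at q1 q2
  exact ⟨Φ, K, hW', hN, sub_eq_zero.1 q1, sub_eq_zero.1 q2⟩

end Pool.Agent.H551.HK
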