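import Pool.Agent.H998.HK.Spec4
import Pool.Agent.H998.HK.FormB
import Pool.Agent.H238.HK.Var
import Pool.Agent.H123.HK.EL
import Pool.Agent.H803.HK.WFB

/-!
# Hohenberg-Kohn project (helper998), task COMP, part 1: limits in `L²`. helper551.
-/

set_option autoImplicit false

noncomputable section

namespace Pool.Agent.H551.HK

open MeasureTheory Filter Topology Set
open scoped ENNReal NNReal ComplexConjugate
open Pool.Agent.H998.HK

section L2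
variable {X : Type} [MeasureSpace X]

theorem nsq {f : X → ℂ} (hf : MemLp f 2) : ‖hf.toLp f‖ ^ 2 = ∫ x, ‖f x‖ ^ 2 := by
  have h1 : ‖hf.toLp f‖ ^ 2 = RCLike.re (inner ℂ (hf.toLp f) (hf.toLp f)) :=
    (inner_self_eq_norm_sq (𝕜 := ℂ) _).symm
  rw [h1, L2.inner_def]
  have h2 : ∫ a, inner ℂ ((hf.toLp f) a) ((hf.toLp f) a) = ∫ a, ((‖f a‖ ^ 2 : ℝ) : ℂ) := by
    refine integral_congr_ae ?_
    filter_upwards [hf.coeFn_toLp] with a ha
    rw [ha]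
    have := inner_self_eq_norm_sq_to_K (𝕜 := ℂ) (f a)
    rw [this]
    simp
  rw [h2]
  have h3 : ∫ a, ((‖f a‖ ^ 2 : ℝ) : ℂ) = ((∫ a, ‖f a‖ ^ 2 : ℝ) : ℂ) := integral_ofReal
  rw [h3]
  exact Complex.ofReal_re _

/-- convergence in `L²` -/
def Cv (u : ℕ → X → ℂ) (w : X → ℂ) : Prop :=
  Tendsto (fun k => ∫ x, ‖u k x - w x‖ ^ 2) atTop (𝓝 0)

theorem cv_iff {u : ℕ → X → ℂ} {w : X → ℂ} (hu : ∀ k, MemLp (u k) 2) (hw : MemLp w 2) :
    Cv u w ↔ Tendsto (fun k => (hu k).toLp (u k)) atTop (𝓝 (hw.toLp w)) := by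
  have e : ∀ k, ∫ x, ‖u k x - w x‖ ^ 2 = ‖(hu k).toLp (u k) - hw.toLp w‖ ^ 2 := by
    intro k
    have h1 : (hu k).toLp (u k) - hw.toLp w = ((hu k).sub hw).toLp (u k - w) := by
      rw [MemLp.toLp_sub]
    rw [h1, nsq]
    rfl
  unfold Cv
  simp only [e]
  rw [tendsto_iff_norm_sub_tendsto_zero (f := fun k => (hu k).toLp (u k)) (b := hw.toLp w)]
  constructor
  · intro h
    have h2 := h.sqrt
    rw [Real.sqrt_zero] at h2
    refine h2.congr fun k => ?_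
    rw [Real.sqrt_sq (norm_nonneg _)]
  · intro h
    have h2 := h.pow 2
    simpa using h2

theorem cv_lim {u : ℕ → X → ℂ} (hu : ∀ k, MemLp (u k) 2) {b : ℕ → ℝ}
    (hb : Tendsto b atTop (𝓝 0)) (h : ∀ k l, ∫ x, ‖u k x - u l x‖ ^ 2 ≤ b k + b l) :
    ∃ w : X → ℂ, MemLp w 2 ∧ Cv u w := by
  have hc : CauchySeq fun k => (hu k).toLp (u k) := by
    rw [Metric.cauchySeq_iff]
    intro ε hε
    have h1 : ∀ᶠ k in atTop, b k < ε ^ 2 / 2 := hb.eventually (gt_mem_nhds (by positivity))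
    obtain ⟨K, hK⟩ := eventually_atTop.1 h1
    refine ⟨K, fun k hk l hl => ?_⟩
    have e : (hu k).toLp (u k) - (hu l).toLp (u l) = ((hu k).sub (hu l)).toLp (u k - u l) := by
      rw [MemLp.toLp_sub]
    have h2 : dist ((hu k).toLp (u k)) ((hu l).toLp (u l)) ^ 2 < ε ^ 2 := by
      rw [dist_eq_norm, e, nsq]
      have h3 := h k l
      have h4 := hK k hk
      have h5 := hK l hl
      have h6 : ∫ x, ‖(u k - u l) x‖ ^ 2 = ∫ x, ‖u k x - u l x‖ ^ 2 := rfl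
      rw [h6]
      linarith
    exact lt_of_pow_lt_pow_left₀ 2 hε.le h2
  obtain ⟨w, hw⟩ := cauchySeq_tendsto_of_complete hc
  refine ⟨w, Lp.memLp w, ?_⟩
  rw [cv_iff hu (Lp.memLp w), Lp.toLp_coeFn]
  exact hw

theorem cv_nsq {u : ℕ → X → ℂ} {w : X → ℂ} (hu : ∀ k, MemLp (u k) 2) (hw : MemLp w 2)
    (h : Cv u w) : Tendsto (fun k => ∫ x, ‖u k x‖ ^ 2) atTop (𝓝 (∫ x, ‖w x‖ ^ 2)) := by
  have h1 := ((cv_iff hu hw).1 h).norm.pow 2
  rw [nsq hw] at h1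
  refine h1.congr fun k => ?_
  exact nsq (hu k)

theorem cv_comp {u : ℕ → X → ℂ} {w : X → ℂ} (h : Cv u w) {φ : ℕ → ℕ} (hφ : StrictMono φ) :
    Cv (fun k => u (φ k)) w :=
  Tendsto.comp (g := fun k => ∫ x, ‖u k x - w x‖ ^ 2) h hφ.tendsto_atTop

/-- integrals against a fixed function -/
theorem cv_int {u : ℕ → X → ℂ} {w : X → ℂ} (hu : ∀ k, MemLp (u k) 2) (hw : MemLp w 2)
    (h : Cv u w) {ψ : X → ℝ} (hψ : MemLp ψ 2) :
    Tendsto (fun k => ∫ x, ψ x • u k x) atTop (𝓝 (∫ x, ψ x • w x)) := by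
  have hψ' : MemLp (fun x => (ψ x : ℂ)) 2 := hψ.ofReal
  have e : ∀ {f : X → ℂ} (hf : MemLp f 2),
      inner ℂ (hψ'.toLp (fun x => (ψ x : ℂ))) (hf.toLp f) = ∫ x, ψ x • f x := by
    intro f hf
    rw [L2.inner_def]
    refine integral_congr_ae ?_
    filter_upwards [hψ'.coeFn_toLp, hf.coeFn_toLp] with a ha hb
    rw [ha, hb]
    simp [mul_comm]
  have h1 := (cv_iff hu hw).1 h
  have h2 : Tendsto (fun k => inner ℂ (hψ'.toLp (fun x => (ψ x : ℂ))) ((hu k).toLp (u k))) atTop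
      (𝓝 (inner ℂ (hψ'.toLp (fun x => (ψ x : ℂ))) (hw.toLp w))) :=
    tendsto_const_nhds.inner h1
  rw [e hw] at h2
  exact h2.congr fun k => e (hu k)

end L2

theorem sq_tri (a b c : ℂ) : ‖a - c‖ ^ 2 ≤ 2 * ‖a - b‖ ^ 2 + 2 * ‖c - b‖ ^ 2 := by
  have h1 : ‖a - c‖ ≤ ‖a - b‖ + ‖c - b‖ := by
    have : a - c = (a - b) - (c - b) := by ring
    rw [this]
    exact norm_sub_le _ _
  have h2 : ‖a - c‖ ^ 2 ≤ (‖a - b‖ + ‖c - b‖) ^ 2 := pow_le_pow_left₀ (norm_nonneg _) h1 2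
  nlinarith [sq_nonneg (‖a - b‖ - ‖c - b‖)]

theorem cv_cauchy {X : Type} [MeasureSpace X] {u : ℕ → X → ℂ} {w : X → ℂ}
    (hu : ∀ k, MemLp (u k) 2) (hw : MemLp w 2) (k l : ℕ) :
    ∫ x, ‖u k x - u l x‖ ^ 2 ≤ 2 * (∫ x, ‖u k x - w x‖ ^ 2) + 2 * ∫ x, ‖u l x - w x‖ ^ 2 := by
  have i1 : ∀ k, Integrable fun x => ‖u k x - w x‖ ^ 2 := fun k =>
    ((hu k).sub hw).integrable_norm_pow (by norm_num)
  rw [← integral_const_mul, ← integral_const_mul, ← integral_add ((i1 k).const_mul 2)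
    ((i1 l).const_mul 2)]
  refine integral_mono (((hu k).sub (hu l)).integrable_norm_pow (by norm_num))
    (((i1 k).const_mul 2).add ((i1 l).const_mul 2)) fun x => sq_tri _ _ _

section WD
variable {X : Type} [NormedAddCommGroup X] [NormedSpace ℝ X] [MeasureSpace X] [BorelSpace X]
  [IsLocallyFiniteMeasure (volume : Measure X)] [FiniteDimensional ℝ X]

theorem WD_lim {e : X} {u g : ℕ → X → ℂ} {w k : X → ℂ} (h : ∀ m, WD e (u m) (g m))
    (hu : ∀ m, MemLp (u m) 2) (hg : ∀ m, MemLp (g m) 2) (hw : MemLp w 2) (hk : MemLp k 2)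
    (h1 : Cv u w) (h2 : Cv g k) : WD e w k := by
  intro φ hφ
  have m1 : MemLp φ 2 := (hφ.1.continuous).memLp_of_hasCompactSupport hφ.2
  have m2 : MemLp (fun z => fderiv ℝ φ z e) 2 :=
    ((hφ.1.continuous_fderiv (by simp)).clm_apply continuous_const).memLp_of_hasCompactSupport
      (HasCompactSupport.fderiv_apply ℝ hφ.2 e)
  have t1 := cv_int hu hw h1 m2
  have t2 := (cv_int hg hk h2 m1).neg
  refine tendsto_nhds_unique t1 (t2.congr fun m => ?_)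
  exact (h m φ hφ).symm

end WD

end Pool.Agent.H551.HK
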